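import Pool.Agent.Y798.OG.Stm2
import Pool.Agent.Y674.FC.C

/-! Self-duality and Weyl invariance of the classes (project OG of helper798, job OG-EQ). -/

set_option autoImplicit false

namespace Pool.Agent.Y737.OG

open UnitAddTorus Pool.Agent.Y798.FC Pool.Agent.Y798.OG
open Pool.Agent.Y139.ID (SD)
open Pool.Agent.Y674.FC (act_eq)

/-- two families with the same multiset of values differ by a permutation -/
theorem exists_perm {ι α : Type} [Fintype ι] (f g : ι → α)
    (h : ∑ i, ({f i} : Multiset α) = ∑ i, ({g i} : Multiset α)) :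
    ∃ σ : Equiv.Perm ι, ∀ j, f j = g (σ j) := by
  classical
  have hc : ∀ (f : ι → α) (a : α), Fintype.card {i // f i = a} =
      Multiset.count a (∑ i, ({f i} : Multiset α)) := by
    intro f a
    rw [Multiset.count_sum', Fintype.card_subtype, Finset.card_filter]
    refine Finset.sum_congr rfl fun i _ => ?_
    rw [Multiset.count_singleton]
    by_cases hi : f i = a
    · simp [hi]
    · rw [if_neg hi, if_neg (fun h => hi h.symm)]
  have he : ∀ a, Nonempty ({i // f i = a} ≃ {i // g i = a}) := fun a =>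
    Fintype.card_eq.1 (by rw [hc, hc, h])
  refine ⟨Equiv.ofFiberEquiv fun a => (he a).some, fun j => ?_⟩
  exact (Equiv.ofFiberEquiv_map (fun a => (he a).some) j).symm

theorem half_add_half : (((1 / 2 : ℝ) : UnitAddCircle)) + ((1 / 2 : ℝ) : UnitAddCircle) = 0 := by
  rw [← AddCircle.coe_add, add_halves]
  exact AddCircle.coe_period 1

theorem neg_half : -(((1 / 2 : ℝ) : UnitAddCircle)) = ((1 / 2 : ℝ) : UnitAddCircle) :=
  neg_eq_of_add_eq_zero_left half_add_half

/-- the values of `pos` -/
theorem sum_pos {m : ℕ} {β : Type} [AddCommMonoid β] (F : UnitAddCircle → β)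
    (x : UnitAddTorus (Fin (m + 1))) : ∑ j, F (pos x j) = ∑ i, F (x i) + ∑ i, F (-x i) := by
  rw [Fin.sum_univ_add]
  simp only [pos, Fin.append_left, Fin.append_right, Pi.neg_apply]

/-- the values of `neg` -/
theorem sum_neg {m : ℕ} {β : Type} [AddCommMonoid β] (F : UnitAddCircle → β)
    (y : UnitAddTorus (Fin m)) : ∑ j, F (neg y j) =
      (F 0 + F ((1 / 2 : ℝ) : UnitAddCircle)) + (∑ i, F (y i) + ∑ i, F (-y i)) := by
  rw [Fin.sum_univ_add]
  simp only [neg, Fin.append_left, Fin.append_right]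
  rw [Fin.sum_univ_succ, Fin.sum_univ_succ]
  simp only [Fin.cons_zero, Fin.cons_succ, Pi.neg_apply]
  exact add_add_add_comm _ _ _ _

/-- the values of `posO` -/
theorem sum_posO {m : ℕ} {β : Type} [AddCommMonoid β] (F : UnitAddCircle → β)
    (x : UnitAddTorus (Fin m)) : ∑ j, F (posO x j) =
      F 0 + (∑ i, F (x i) + ∑ i, F (-x i)) := by
  rw [Fin.sum_univ_succ]
  simp only [posO, Fin.cons_zero, Fin.cons_succ]
  rw [Fin.sum_univ_add]
  simp only [Fin.append_left, Fin.append_right, Pi.neg_apply]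

/-- the signed permutations do not change the values `± x_j` -/
theorem sum_act {m : ℕ} {β : Type} [AddCommMonoid β] (F : UnitAddCircle → β)
    {w : Auts (Fin m)} (hw : w ∈ sympW m) (x : UnitAddTorus (Fin m)) :
    ∑ i, F (act w x i) + ∑ i, F (-act w x i) = ∑ i, F (x i) + ∑ i, F (-x i) := by
  obtain ⟨σ, s, h⟩ := hw
  rw [← Finset.sum_add_distrib, ← Finset.sum_add_distrib]
  rw [← Equiv.sum_comp σ⁻¹ (fun i => F (x i) + F (-x i))]
  refine Finset.sum_congr rfl fun j _ => ?_
  rw [act_eq h]
  rcases Int.units_eq_one_or (s (σ⁻¹ j)) with h1 | h1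
  · rw [h1]
    simp
  · rw [h1]
    simp [add_comm]

theorem t : StmEq := by
  intro m
  have hSD : ∀ (N : ℕ) (x : UnitAddTorus (Fin N)),
      ∑ j, ({-x j} : Multiset UnitAddCircle) = ∑ j, ({x j} : Multiset UnitAddCircle) →
      x ∈ SD N := by
    intro N x h
    obtain ⟨σ, hσ⟩ := exists_perm (fun j => -x j) (fun j => x j) h
    exact ⟨σ, fun j => (hσ j).symm⟩
  refine ⟨fun x => hSD _ _ ?_, fun y => hSD _ _ ?_, fun x => hSD _ _ ?_, fun x => hSD _ _ ?_,
    fun w hw x => exists_perm _ _ ?_, fun w hw y => exists_perm _ _ ?_,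
    fun w hw x => exists_perm _ _ ?_⟩
  · rw [sum_pos (fun a => ({-a} : Multiset UnitAddCircle)) x,
      sum_pos (fun a => ({a} : Multiset UnitAddCircle)) x]
    simp only [neg_neg]
    exact add_comm _ _
  · rw [sum_neg (fun a => ({-a} : Multiset UnitAddCircle)) y,
      sum_neg (fun a => ({a} : Multiset UnitAddCircle)) y]
    simp only [neg_neg, neg_zero, neg_half]
    rw [add_comm (∑ i, ({-y i} : Multiset UnitAddCircle))]
  · rw [sum_posO (fun a => ({-a} : Multiset UnitAddCircle)) x,
      sum_posO (fun a => ({a} : Multiset UnitAddCircle)) x]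
    simp only [neg_neg, neg_zero]
    rw [add_comm (∑ i, ({-x i} : Multiset UnitAddCircle))]
  · unfold negO
    rw [sum_posO (fun a => ({-(a + ((1 / 2 : ℝ) : UnitAddCircle))} : Multiset UnitAddCircle)) x,
      sum_posO (fun a => ({a + ((1 / 2 : ℝ) : UnitAddCircle)} : Multiset UnitAddCircle)) x]
    simp only [neg_add, neg_neg, neg_zero, neg_half]
    rw [add_comm (∑ i, ({-x i + ((1 / 2 : ℝ) : UnitAddCircle)} : Multiset UnitAddCircle))]
  · rw [sum_pos (fun a => ({a} : Multiset UnitAddCircle)),
      sum_pos (fun a => ({a} : Multiset UnitAddCircle))]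
    exact sum_act (fun a => ({a} : Multiset UnitAddCircle)) hw x
  · rw [sum_neg (fun a => ({a} : Multiset UnitAddCircle)),
      sum_neg (fun a => ({a} : Multiset UnitAddCircle)),
      sum_act (fun a => ({a} : Multiset UnitAddCircle)) hw y]
  · rw [sum_posO (fun a => ({a} : Multiset UnitAddCircle)),
      sum_posO (fun a => ({a} : Multiset UnitAddCircle)),
      sum_act (fun a => ({a} : Multiset UnitAddCircle)) hw x]

end Pool.Agent.Y737.OG
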